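import Pool.Agent.Q261.Red.Up2

/-!
# The frequencies of reduced matrices are not given by the Gauss-Kuzmin ratios

The definitions (`Mat`, `Ma`, `MP`, `HasLLS`, `norm12`, `run3`, `Output`, `cf`, `bump`, `GK`, `S`,
`cnt`, `Claim`) are in `Pool.Agent.Q261.Red.Defs`.
-/

set_option autoImplicit false

namespace Pool.Agent.Results.MP_0a7e48_nt.RatioFails

open Filter Topology Q261.Red

lemma GK_one : GK [1] = Real.logb 2 (4 / 3) := by
  unfold GK
  congr 1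
  norm_num [cf, bump]

lemma GK_single (a : ℕ) : GK [a] =
    Real.logb 2 ((((a : ℝ) + 1) * (1 + a)) / (a * (1 + (a + 1)))) := by
  unfold GK
  congr 1
  simp [cf, bump]

/-- the Gauss-Kuzmin ratio is large -/
lemma GK_ratio {a : ℕ} (ha : 1 ≤ a) : (a : ℝ) ^ 2 / 4 ≤ GK [1] / GK [a] := by
  have ha' : (1 : ℝ) ≤ a := by exact_mod_cast ha
  rw [GK_one, GK_single]
  have l2 : 0 < Real.log 2 := Real.log_pos (by norm_num)
  have e1 : (((a : ℝ) + 1) * (1 + a)) / (a * (1 + (a + 1))) = 1 + 1 / (a * (a + 2)) := by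
    field_simp
    ring
  rw [e1]
  have h1 : 1 - 3 / 4 ≤ Real.log (4 / 3) := by
    have := Real.one_sub_inv_le_log_of_pos (show (0 : ℝ) < 4 / 3 by norm_num)
    rw [inv_div] at this
    exact this
  have h2 : Real.log (1 + 1 / (a * (a + 2))) ≤ 1 / (a * (a + 2)) := by
    have := Real.log_le_sub_one_of_pos (show (0 : ℝ) < 1 + 1 / (a * (a + 2)) by positivity)
    linarith
  have h3 : 0 < Real.log (1 + 1 / ((a : ℝ) * (a + 2))) := Real.log_pos (by
    have : 0 < 1 / ((a : ℝ) * (a + 2)) := by positivity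
    linarith)
  unfold Real.logb
  rw [div_div_div_cancel_right₀ l2.ne', le_div_iff₀ h3]
  calc (a : ℝ) ^ 2 / 4 * Real.log (1 + 1 / (a * (a + 2))) ≤ (a : ℝ) ^ 2 / 4 * (1 / (a * (a + 2))) :=
        mul_le_mul_of_nonneg_left h2 (by positivity)
    _ ≤ 1 / 4 := by
        rw [mul_one_div, div_div, div_le_div_iff₀ (by positivity) (by norm_num)]
        nlinarith
    _ ≤ _ := by linarith

lemma arith1 {X N B W : ℝ} (hX : 3 ≤ X) (hW : 200 * X ^ 3 ≤ W) (hN : W ^ 2 ≤ N) (hB : B ^ 2 ≤ N)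
    (hB0 : 0 ≤ B) : (2 * (X * (B + 2)) + 1) * ((2 * X ^ 2 + 1) * 2) ≤ N := by
  have hX3 : 27 ≤ X ^ 3 := by
    calc (27 : ℝ) = 3 ^ 3 := by norm_num
      _ ≤ X ^ 3 := pow_le_pow_left₀ (by norm_num) hX 3
  have hW1 : 1 ≤ W := by linarith
  have hW0 : 0 ≤ W := by linarith
  have hN0 : 0 ≤ N := le_trans (sq_nonneg _) hN
  have h1 : W * B ≤ N := by
    have : (W * B) ^ 2 ≤ N ^ 2 := by
      rw [mul_pow, sq N]
      exact mul_le_mul hN hB (sq_nonneg _) hN0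
    exact (pow_le_pow_iff_left₀ (by positivity) hN0 (by norm_num)).1 this
  have h2 : W ≤ N := by
    refine le_trans ?_ hN
    rw [sq]
    exact le_mul_of_one_le_left hW0 hW1
  have e1 : 2 * (X * (B + 2)) + 1 ≤ 5 * X * (B + 1) := by nlinarith [mul_nonneg (by linarith : 0 ≤ X) hB0]
  have e2 : (2 * X ^ 2 + 1) * 2 ≤ 6 * X ^ 2 := by nlinarith
  have e3 : (2 * (X * (B + 2)) + 1) * ((2 * X ^ 2 + 1) * 2) ≤ (5 * X * (B + 1)) * (6 * X ^ 2) :=
    mul_le_mul e1 e2 (by positivity) (by positivity)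
  have e4 : (5 * X * (B + 1)) * (6 * X ^ 2) = 30 * X ^ 3 * (B + 1) := by ring
  have e5 : 30 * X ^ 3 * (B + 1) ≤ (W / 2) * (B + 1) :=
    mul_le_mul_of_nonneg_right (by linarith) (by linarith)
  linarith

lemma arith2 {a N Y : ℝ} (ha : 1 ≤ a) (h3 : N < 12 * a * ((Y + 1) * (Y + 1)))
    (hN : 12 * a * (101 * 101) ≤ N) (hY0 : 0 ≤ Y) : N / (200 * a) ≤ Y ^ 2 / 8 := by
  have h4 : 100 ≤ Y := by
    by_contra! hcon
    have h5 : 12 * a * ((Y + 1) * (Y + 1)) ≤ 12 * a * (101 * 101) := by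
      apply mul_le_mul_of_nonneg_left _ (by positivity)
      nlinarith
    linarith
  rw [div_le_div_iff₀ (by positivity) (by norm_num)]
  have h5 : (Y + 1) * (Y + 1) ≤ 2 * Y ^ 2 := by nlinarith
  have h6 : 12 * (a : ℝ) * ((Y + 1) * (Y + 1)) ≤ 12 * a * (2 * Y ^ 2) :=
    mul_le_mul_of_nonneg_left h5 (by positivity)
  nlinarith

lemma arith3 {a N C : ℝ} (ha : 1000000 ≤ a) (hN : 0 ≤ N) (hC : C ^ 2 ≤ N / (a - 1)) :
    8 * (a + 2 + 1) * C ^ 2 ≤ 9 * N := by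
  calc 8 * (a + 2 + 1) * C ^ 2 ≤ 8 * (a + 2 + 1) * (N / (a - 1)) :=
        mul_le_mul_of_nonneg_left hC (by positivity)
    _ = 8 * (a + 3) * N / (a - 1) := by ring
    _ ≤ 9 * N := by
        rw [div_le_iff₀ (by linarith)]
        nlinarith

/-- the true ratio is smaller -/
lemma ratio_le {a : ℕ} (ha : 1000000 ≤ a) :
    ∀ᶠ N : ℕ in atTop, (cnt [1, a] N : ℝ) / (cnt [a, 1] N : ℝ) ≤ 60000 * a := by
  have ha' : (1000000 : ℝ) ≤ a := by exact_mod_cast ha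
  set W : ℝ := 200 * ((a : ℝ) + 2) ^ 3 with hW
  have hW1 : 12 * (a : ℝ) * (101 * 101) ≤ W ^ 2 := by
    have h1 : (1 : ℝ) ≤ ((a : ℝ) + 2) := by linarith
    have h2 : (a : ℝ) ≤ ((a : ℝ) + 2) ^ 3 := by
      calc (a : ℝ) ≤ a + 2 := by linarith
        _ ≤ (a + 2) ^ 3 := le_self_pow₀ h1 (by norm_num)
    have h3 : 200 * (a : ℝ) ≤ W := by rw [hW]; linarith
    nlinarith
  -- a crude threshold
  obtain ⟨N₀, hN₀⟩ := exists_nat_ge (W ^ 2)
  filter_upwards [eventually_ge_atTop N₀] with N hN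
  have hN' : W ^ 2 ≤ N := hN₀.trans (by exact_mod_cast hN)
  have ha0 : (0 : ℝ) < a := by linarith
  have hNpos : (0 : ℝ) < N := lt_of_lt_of_le (by positivity) hN'
  have hB : (Nat.sqrt N : ℝ) ^ 2 ≤ N := by exact_mod_cast Nat.sqrt_le' N
  have ea : a + 2 - 3 = a - 1 := by omega
  have hC : (Nat.sqrt (N / (a - 1)) : ℝ) ^ 2 ≤ N / ((a : ℝ) - 1) := by
    have h1 : (Nat.sqrt (N / (a - 1)) : ℝ) ^ 2 ≤ ((N / (a - 1) : ℕ) : ℝ) := by
      exact_mod_cast Nat.sqrt_le' (N / (a - 1))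
    refine h1.trans (Nat.cast_div_le.trans ?_)
    have : ((a - 1 : ℕ) : ℝ) = (a : ℝ) - 1 := by
      rw [Nat.cast_sub (by omega)]
      norm_num
    rw [this]
  have hup := cnt_le (a := a) (by omega) N
  have hlow := cnt_ge (a := a) (by omega) N
  rw [ea] at hup
  push_cast at hup
  -- the upper bound
  have hU : (cnt [1, a] N : ℝ) ≤ 300 * N := by
    have h1 := arith3 ha' hNpos.le hC
    have h2 := arith1 (X := (a : ℝ) + 2) (by linarith) hW.ge hN' hB (Nat.cast_nonneg _)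
    linarith
  -- the lower bound
  have hL : (N : ℝ) / (200 * a) ≤ cnt [a, 1] N := by
    refine le_trans ?_ hlow
    have h1 : N / (12 * a) < (Nat.sqrt (N / (12 * a)) + 1) * (Nat.sqrt (N / (12 * a)) + 1) :=
      Nat.lt_succ_sqrt _
    have h2 : N < 12 * a * ((Nat.sqrt (N / (12 * a)) + 1) * (Nat.sqrt (N / (12 * a)) + 1)) := by
      rw [mul_comm]
      exact (Nat.div_lt_iff_lt_mul (by omega)).1 h1
    refine arith2 (by linarith) ?_ (hW1.trans hN') (Nat.cast_nonneg _)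
    exact_mod_cast h2
  have hpos : (0 : ℝ) < cnt [a, 1] N := lt_of_lt_of_le (by positivity) hL
  rw [div_le_iff₀ hpos]
  have h1 : (60000 * (a : ℝ)) * (N / (200 * a)) = 300 * N := by
    field_simp
    norm_num
  calc (cnt [1, a] N : ℝ) ≤ 300 * N := hU
    _ = (60000 * (a : ℝ)) * (N / (200 * a)) := h1.symm
    _ ≤ 60000 * a * cnt [a, 1] N := mul_le_mul_of_nonneg_left hL (by positivity)

theorem fails {a : ℕ} (ha : 1000000 ≤ a) : ¬ Claim [1, a] := by
  intro h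
  have ha' : (1000000 : ℝ) ≤ a := by exact_mod_cast ha
  unfold Claim at h
  have e1 : ([1, a] : List ℕ).rotate 1 = [a, 1] := rfl
  have e2 : ([1, a] : List ℕ).dropLast = [1] := rfl
  have e3 : ([a, 1] : List ℕ).dropLast = [a] := rfl
  rw [e1, e2, e3] at h
  have h1 := le_of_tendsto h (ratio_le ha)
  have h2 := GK_ratio (a := a) (by omega)
  have h3 : (a : ℝ) ^ 2 / 4 ≤ 60000 * a := h2.trans h1
  nlinarith

/-- **Main result**: the answer to Q1 is negative. For `P = (1, a)` with `a ≥ 10 ^ 6` the ratio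
`#_N(P_1) / #_N(P_2)` is at most `60000 a` for all large `N`, while the Gauss-Kuzmin ratio is at least
`a ^ 2 / 4`; so it does not tend to the Gauss-Kuzmin ratio. -/
theorem result :
    (¬ ∀ P : List ℕ, 2 ≤ P.length → Even P.length → (∀ b ∈ P, 1 ≤ b) → Claim P) ∧
    (∀ a : ℕ, 1000000 ≤ a → ¬ Claim [1, a] ∧
      (∀ᶠ N : ℕ in atTop, (cnt [1, a] N : ℝ) / (cnt [a, 1] N : ℝ) ≤ 60000 * a) ∧
      (a : ℝ) ^ 2 / 4 ≤ GK [1] / GK [a]) := by
  refine ⟨fun h => ?_, fun a ha => ⟨fails ha, ratio_le ha, GK_ratio (by omega)⟩⟩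
  refine fails (a := 1000000) le_rfl (h [1, 1000000] ?_ ?_ ?_)
  · norm_num
  · exact ⟨1, rfl⟩
  · intro b hb
    simp only [List.mem_cons, List.not_mem_nil, or_false] at hb
    omega

end Pool.Agent.Results.MP_0a7e48_nt.RatioFails
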